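import Mathlib
import Pool.Agent.H410R3.TU.Defs
import Pool.Agent.H410R3.TU.Main

/-!
# MP_9aeaaa_lc, Q2: topological conjugacy on `Diff^∞(M)`, `dim M ≥ 2`, is not Borel reducible to a
Borel action of `S_∞`

Idea: in a chart, `f_x` moves the points inside a sequence of small balls `V_n(x)` in the direction
of the second coordinate, except for `n + 1` fixed points in `V_n(x)`, and fixes everything else.
The balls accumulate at a segment; the position of `V_n(x)` along the segment is given by `x_k` for
`n = 2 k`, and is the endpoint `1` for `n` odd. If `x - y` is in `ℓ¹`, then `f_x` and `f_y` are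
conjugate by a homeomorphism sliding `V_n(x)` to `V_n(y)`. Conversely a conjugacy maps `V_n(x)` onto
`V_n(y)` for every `n` (counting the isolated fixed points), so it fixes the endpoint `1` of the
segment, and it can not map the endpoint `0` to the endpoint `1`. The action of `ℓ¹` on `ℝ^ℕ` is
turbulent (the needed consequence, proved in `Pool.Agent.H468R2`: a Borel map to a Borel `S_∞`-space
which maps `ℓ¹`-equivalent sequences to the same orbit maps a comeager set into one orbit).
-/

open scoped Manifold ContDiff
open Pool.Agent.H410R3.TU

universe u

namespace Pool.Agent.Results.MP_9aeaaa_lc.NotCountableStructures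

/-- Let `M` be a nonempty compact smooth manifold without boundary, of dimension at least `2`. For
every Borel action of `S_∞` on a standard Borel space `Y`, the relation `E_M` of topological
conjugacy on `Diff^∞(M)` is not Borel reducible to the orbit equivalence relation of the action. -/
theorem result {E H : Type} [NormedAddCommGroup E] [NormedSpace ℝ E] [FiniteDimensional ℝ E]
    [TopologicalSpace H] (I : ModelWithCorners ℝ E H) [I.Boundaryless]
    (M : Type) [TopologicalSpace M] [ChartedSpace H M] [IsManifold I ∞ M] [T2Space M]
    [CompactSpace M] [Nonempty M] (hdim : 2 ≤ Module.finrank ℝ E)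
    (Y : Type u) [MeasurableSpace Y] [StandardBorelSpace Y] [MulAction (Equiv.Perm ℕ) Y]
    (hY : IsBorelAction Y) : ¬ ReducesToOrbits I M Y :=
  main I M hdim Y hY

end Pool.Agent.Results.MP_9aeaaa_lc.NotCountableStructures
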